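import Pool.Agent.N162.HN.Stm2
import Pool.Agent.N80.HN.Conf

/-!
The configuration of points and curves given by a cycle with the residue relations (project HO of
helper162; port of N80/HN/Conf.lean of helper80, by helper835).
-/

set_option autoImplicit false

open FF Pool.Agent.W603.LV Pool.Agent.Y184.NT Pool.Agent.N162.BC MvPolynomial IntermediateField

namespace Pool.Agent.N835.HO

open Pool.Agent.N162.HN Pool.Agent.N80.HN
open Pool.Agent.N162.CV (PRel MonicY)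

section

variable {n : ℕ} {K Ω : Type} [Field K] [Algebra ℂ K] [Field Ω] [Algebra ℂ Ω]

theorem emb_apply' {R : Type} [Zero R] {x : Fin (n + 2) → K}
    (hgen : IntermediateField.adjoin ℂ (Set.range x) = ⊤)
    (f : (K →ₐ[ℂ] Ω) →₀ R) (σ : K →ₐ[ℂ] Ω) : f.embDomain (emb Ω hgen) (pt x σ) = f σ :=
  Finsupp.embDomain_apply_self (emb Ω hgen) f σ

theorem emb_ne' {R : Type} [Zero R] {x : Fin (n + 2) → K}
    (hgen : IntermediateField.adjoin ℂ (Set.range x) = ⊤)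
    (f : (K →ₐ[ℂ] Ω) →₀ R) {p : Fin (n + 2) → Ω} (h : f.embDomain (emb Ω hgen) p ≠ 0) :
    ∃ σ : K →ₐ[ℂ] Ω, p = pt x σ ∧ f σ ≠ 0 := by
  have h1 : p ∈ (f.embDomain (emb Ω hgen)).support := Finsupp.mem_support_iff.2 h
  rw [Finsupp.support_embDomain, Finset.mem_map] at h1
  obtain ⟨σ, hσ, rfl⟩ := h1
  exact ⟨σ, rfl, Finsupp.mem_support_iff.1 hσ⟩

/-- the dual vectors at the points -/
theorem dual_pt {F : MvPolynomial (Fin (n + 2)) ℂ} {x c : Fin (n + 2) → K}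
    (hc : ∑ l, aeval x (pderiv l F) * c l = 1) (σ : K →ₐ[ℂ] Ω) :
    ∑ l, aeval (pt x σ) (pderiv l F) * σ (c l) = 1 := by
  rw [← map_one σ, ← hc, map_sum]
  refine Finset.sum_congr rfl fun l _ => ?_
  rw [map_mul, pt_aeval]

/-- change of the derivations -/
theorem rows_change {y : Fin n → Ω} (hy : IsTranscendenceBasis ℂ y)
    {D : Fin n → Derivation ℂ Ω Ω} (hD : ∀ i j, D i (y j) = if i = j then 1 else 0)
    (D' : Fin n → Derivation ℂ Ω Ω) (v p : Fin (n + 2) → Ω) :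
    (rows v p D').det = (Matrix.of fun i j => D' i (y j)).det * (rows v p D).det := by
  have h := Pool.Agent.N162.HS.rows_pull (AlgHom.id ℂ Ω) hy hD D' v p
  simpa using h

theorem base (hC1 : StC1) (hC2 : StC2) (hN : StN) (hND : StND) (hCUR : StCUR)
    (hALG : Pool.Agent.N162.CV.StALG) [IsAlgClosed Ω] (F : MvPolynomial (Fin (n + 2)) ℂ)
    (d m N : ℕ) (hn : 1 ≤ n) (hs : Sm F) (hF : F.IsHomogeneous d) (hm : m + n + 2 = d)
    (hNd : (n + 1) * N < d) (hF3 : eval (Pi.single (Fin.last (n + 1)) 1) F ≠ 0)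
    (x : Fin (n + 2) → K) (hx0 : x 0 = 1) (hx : aeval x F = 0)
    (hgen : IntermediateField.adjoin ℂ (Set.range x) = ⊤) (hK : Algebra.trdeg ℂ K = n)
    (hΩ : Algebra.trdeg ℂ Ω = n) (hR : Relns F x) (A : Fin n → MvPolynomial (Fin 2) Ω)
    (hA : ∀ l, MonicY (A l) ∧ 1 ≤ (A l).totalDegree ∧ (A l).totalDegree ≤ N) :
    ∃ (κ : (Fin (n + 2) → Ω) → Ω) (r : ℕ) (C : Fin r → Crv n Ω)
      (z : Fin r → (Fin (n + 2) → Ω) →₀ ℤ) (c : Fin (n + 2) → K) (y : Fin n → Ω)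
      (D : Fin n → Derivation ℂ Ω Ω),
      ∑ l, aeval x (pderiv l F) * c l = 1 ∧ IsTranscendenceBasis ℂ y ∧
      (∀ i j, D i (y j) = if i = j then 1 else 0) ∧
      (∀ σ : K →ₐ[ℂ] Ω, κ (pt x σ) = (rows (fun j => σ (c j)) (pt x σ) D).det) ∧
      (∀ σ : K →ₐ[ℂ] Ω, κ (pt x σ) ≠ 0) ∧
      (∀ i l, aeval ![(C i).X 1, (C i).X l.succ.succ] (A l) = 0) ∧
      (∀ p : Fin (n + 2) → Ω, p 0 = 1 → (∀ l : Fin n, eval ![p 1, p l.succ.succ] (A l) = 0) →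
        ∃ i, (C i).On p) ∧
      (∀ i j, i ≠ j → ∃ P : MvPolynomial (Fin (n + 2)) Ω, aeval (C i).X P = 0 ∧
        aeval (C j).X P ≠ 0) ∧
      (∀ i, N < (C i).deg ∨ (cmp Ω F (C i).X = 0 ∧ z i = 0) ∨ (cmp Ω F (C i).X ≠ 0 ∧
        ∀ σ : K →ₐ[ℂ] Ω, z i (pt x σ) = mu (C i).X (cmp Ω F (C i).X) (pt x σ))) ∧
      (∀ i p, z i p ≠ 0 → ∃ σ : K →ₐ[ℂ] Ω, p = pt x σ) ∧ (∀ i p, 0 ≤ z i p) ∧
      (∀ i p, z i p ≠ 0 → (C i).On p) ∧
      (∀ i (Q : Finset (Fin (n + 2) → Ω)), ∑ p ∈ Q, z i p ≤ ((C i).deg * d : ℕ)) ∧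
      (∀ i, Rel m κ (z i)) ∧
      (∀ i, (C i).deg ≤ N → ∀ σ : K →ₐ[ℂ] Ω, (C i).On (pt x σ) → z i (pt x σ) ≠ 0) ∧
      ∀ Γ : Finset (Fin (n + 2) → Ω), (∀ p ∈ Γ, p 0 = 1) → ∃ bad : Finset Ω, ∀ t : Ω, t ∉ bad →
        ∃ G : Fin r → MvPolynomial (Fin 2) Ω,
          Prj Γ (fun i => (C i).deg) (fun i p => (C i).On p) A t G := by
  classical
  have hcΩ : CharZero Ω := charZero_of_injective_algebraMap (algebraMap ℂ Ω).injective
  obtain ⟨c, hc⟩ := Pool.Agent.Y184.NT.exists_c hs (x := x) (j0 := 0)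
    (by rw [hx0]; exact one_ne_zero)
  obtain ⟨y, hy⟩ := exists_tb (k := ℂ) (L := Ω) hΩ
  choose D hD using fun i : Fin n => Pool.Agent.W602.GT.exists_der y hy
    fun j => if i = j then (1 : Ω) else 0
  obtain ⟨cc, hcc1, hcc2⟩ := exists_cc (Ω := Ω) hs hgen hc
  obtain ⟨κ, hκ⟩ : ∃ κ : (Fin (n + 2) → Ω) → Ω, κ = fun p => (rows (cc p) p D).det := ⟨_, rfl⟩
  have hκσ : ∀ σ : K →ₐ[ℂ] Ω, κ (pt x σ) =
      (rows (fun j => σ (c j)) (pt x σ) D).det := by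
    intro σ
    rw [hκ]
    simp only
    rw [hcc1]
  have hκne : ∀ σ : K →ₐ[ℂ] Ω, κ (pt x σ) ≠ 0 := by
    intro σ
    rw [hκσ]
    exact Pool.Agent.N162.HS.rows_ne hF (by omega) hx hc hx0 hgen hK hΩ hy hD σ
  obtain ⟨r, C, hAX, hcov, hdis, hproj⟩ := hCUR n Ω A hn (fun l => (hA l).1) (fun l => (hA l).2.1)
  have hnoT : ∀ i, (C i).deg ≤ N → cmp Ω F (C i).X = 0 →
      ∀ σ : K →ₐ[ℂ] Ω, ¬ (C i).On (pt x σ) := by
    rintro i hiN hi σ ⟨v, hv⟩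
    apply hκne σ
    rw [hκ]
    have hiN' : Module.finrank Ω⟮(C i).X 1⟯ (C i).E ≤ N := hiN
    have hnN : N + n ≤ (n + 1) * N ∨ N = 0 := by
      rcases Nat.eq_zero_or_pos N with h | h
      · exact Or.inr h
      · left
        nlinarith
    exact hN n Ω (C i).E F d hn hs hF (C i).X (C i).good hi (by omega) D v (pt x σ)
      (cc (pt x σ)) hv
  have hz : ∀ i, ∃ z : (Fin (n + 2) → Ω) →₀ ℤ, (N < (C i).deg ∨
        (cmp Ω F (C i).X = 0 ∧ z = 0) ∨ (cmp Ω F (C i).X ≠ 0 ∧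
        ∀ σ : K →ₐ[ℂ] Ω, z (pt x σ) = mu (C i).X (cmp Ω F (C i).X) (pt x σ))) ∧
      (∀ p, z p ≠ 0 → ∃ σ : K →ₐ[ℂ] Ω, p = pt x σ) ∧ (∀ p, 0 ≤ z p) ∧
      (∀ p, z p ≠ 0 → (C i).On p) ∧
      (∀ Q : Finset (Fin (n + 2) → Ω), ∑ p ∈ Q, z p ≤ ((C i).deg * d : ℕ)) ∧
      Rel m κ z ∧
      ((C i).deg ≤ N → ∀ σ : K →ₐ[ℂ] Ω, (C i).On (pt x σ) → z (pt x σ) ≠ 0) := by
    intro i
    by_cases hiN : N < (C i).deg
    · refine ⟨0, Or.inl hiN, fun p h => absurd rfl h, fun p => le_rfl,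
        fun p h => absurd rfl h, fun Q => ?_, fun P _ => ?_,
        fun h => absurd h (not_le.2 hiN)⟩
      · simp only [Finsupp.coe_zero, Pi.zero_apply, Finset.sum_const_zero]
        positivity
      · unfold Lam
        rw [Finsupp.support_zero, Finset.sum_empty]
    by_cases hi : cmp Ω F (C i).X = 0
    · refine ⟨0, Or.inr (Or.inl ⟨hi, rfl⟩), fun p h => absurd rfl h, fun p => le_rfl,
        fun p h => absurd rfl h, fun Q => ?_, fun P _ => ?_,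
        fun h σ hσ => absurd hσ (hnoT i h hi σ)⟩
      · simp only [Finsupp.coe_zero, Pi.zero_apply, Finset.sum_const_zero]
        positivity
      · unfold Lam
        rw [Finsupp.support_zero, Finset.sum_empty]
    · obtain ⟨z, h1, h2, h3, h4, h5, h6, h7⟩ := one_cycle hC1 hC2 hND hn hs hF hm hF3 hx0 hx hgen
        hK hR hcc2 (D := D) (C i) hi
      rw [hκ]
      exact ⟨z, Or.inr (Or.inr ⟨hi, h1⟩), h2, h3, h4, h5, h6, fun _ => h7⟩
  choose z hz1 hz2 hz3 hz4 hz5 hz6 hz7 using hz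
  refine ⟨κ, r, C, z, c, y, D, hc, hy, hD, hκσ, hκne, hAX, hcov, hdis, hz1, hz2, hz3, hz4, hz5,
    hz6, hz7, ?_⟩
  intro Γ hΓ
  obtain ⟨bad, hbad⟩ := hproj Γ hΓ
  refine ⟨bad, fun t ht => ?_⟩
  obtain ⟨G, hG1, hG2, hG3⟩ := hbad t ht
  refine ⟨G, fun i => (hG1 i).1, fun i => (hG1 i).2.1, fun i => (hG1 i).2.2.1, hG2,
    fun i p hp => ⟨fun h => hG3 i p hp h, ?_⟩, ?_⟩
  · rintro ⟨v, hv⟩
    refine Pool.Agent.N162.CV.eval_zero_of (at_pr hv t) ?_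
    rw [(hG1 i).2.2.2]
    exact Ge.zero
  · intro P hP
    exact fin_clause hC1 hALG C hcov (fun i => (hG1 i).1) (fun i => (hG1 i).2.2.2) P hP

end

/-- **HO/CONFR** -/
theorem confr_ (hC1 : StC1) (hC2 : StC2) (hN : StN) (hND : StND) (hCUR : StCUR)
    (hALG : Pool.Agent.N162.CV.StALG) : StCONFR := by
  classical
  intro n K Ω _ _ _ _ _ F d m N hn hs hF hm hNm hNd hF3 x hx0 hx hgen hK hΩ hR f hf hcard A hA hAc
  have hcΩ : CharZero Ω := charZero_of_injective_algebraMap (algebraMap ℂ Ω).injective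
  obtain ⟨κ, r, C, z, c, y, D, hc, hy, hD, hκσ, hκne, hAX, hcov, hdis, hz1, hz2, hz3, hz4, hz5,
    hz6, hz7, hpr⟩ := base hC1 hC2 hN hND hCUR hALG F d m N hn hs hF hm hNd hF3 x hx0 hx hgen hK hΩ
      hR A hA
  have hx0σ : ∀ σ : K →ₐ[ℂ] Ω, pt x σ 0 = 1 := fun σ => by
    unfold pt
    rw [hx0, map_one]
  refine ⟨κ, r, C, z, f.embDomain (emb Ω hgen), hAX, hcov, hdis, emb_apply' hgen f, ?_, ?_, hz2,
    hz1⟩
  · intro p hp
    obtain ⟨σ, h1, _⟩ := emb_ne' hgen f hp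
    exact ⟨σ, h1⟩
  refine ⟨hn, hm, hNm, hNd, ?_, ?_, ?_, fun l => (hA l).1, fun l => (hA l).2.1,
    fun l => (hA l).2.2, ?_, ?_, ?_, ?_, ?_, ?_, hpr⟩
  · intro p hp
    obtain ⟨σ, rfl, _⟩ := emb_ne' hgen f hp
    exact ⟨hx0σ σ, hκne σ⟩
  · intro P hP
    unfold Lam
    rw [Finsupp.support_embDomain, Finset.sum_map]
    have h0 := hf c hc D P hP
    have hsup : (f.mapRange (Int.cast : ℤ → Ω) Int.cast_zero).support = f.support := by
      ext σ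
      rw [Finsupp.mem_support_iff, Finsupp.mem_support_iff, Finsupp.mapRange_apply]
      simp
    rw [hsup] at h0
    rw [← h0]
    refine Finset.sum_congr rfl fun σ _ => ?_
    have h1 : f.embDomain (emb Ω hgen) (pt x σ) = f σ := emb_apply' hgen f σ
    change (f.embDomain (emb Ω hgen) (pt x σ) : Ω) * (κ (pt x σ) * eval (pt x σ) P) = _
    rw [h1, hκσ, Finsupp.mapRange_apply]
  · rw [Finsupp.support_embDomain, Finset.card_map]
    exact hcard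
  · intro p hp
    obtain ⟨σ, rfl, hσ⟩ := emb_ne' hgen f hp
    exact hAc σ hσ
  · intro i p hi hp hon
    obtain ⟨σ, rfl, hσ⟩ := emb_ne' hgen f hp
    exact hz7 i hi σ hon
  · intro i p hp
    obtain ⟨σ, rfl⟩ := hz2 i p hp
    exact ⟨hx0σ σ, hκne σ, hz4 i _ hp⟩
  · exact hz3
  · exact hz5
  · exact hz6

/-- **HO/CONFO** -/
theorem confo_ (hC1 : StC1) (hC2 : StC2) (hN : StN) (hND : StND) (hCUR : StCUR)
    (hALG : Pool.Agent.N162.CV.StALG) : StCONFO := by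
  classical
  intro n K Ω _ _ _ _ _ F d m N hn hs hF hm hNm hNd hF3 x hx0 hx hgen hK hΩ hR f hf hcard A hA hAc
  obtain ⟨κ, r, C, z, c, y, D, hc, hy, hD, hκσ, hκne, hAX, hcov, hdis, hz1, hz2, hz3, hz4, hz5,
    hz6, hz7, hpr⟩ := base hC1 hC2 hN hND hCUR hALG F d m N hn hs hF hm hNd hF3 x hx0 hx hgen hK hΩ
      hR A hA
  have hx0σ : ∀ σ : K →ₐ[ℂ] Ω, pt x σ 0 = 1 := fun σ => by
    unfold pt
    rw [hx0, map_one]
  refine ⟨κ, r, fun i => (C i).deg, fun i p => (C i).On p, z, f.embDomain (emb Ω hgen),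
    emb_apply' hgen f, ?_, ?_, hz2, ?_⟩
  · intro p hp
    obtain ⟨σ, h1, _⟩ := emb_ne' hgen f hp
    exact ⟨σ, h1⟩
  · refine ⟨hn, hm, hNm, hNd, ?_, ?_, ?_, fun l => (hA l).1, fun l => (hA l).2.1,
      fun l => (hA l).2.2, ?_, ?_, ?_, ?_, ?_, ?_, hpr⟩
    · intro p hp
      obtain ⟨σ, rfl, _⟩ := emb_ne' hgen f hp
      exact ⟨hx0σ σ, hκne σ⟩
    · intro P hP
      rw [Finsupp.support_embDomain, Finset.sum_map, ← hf c hc D P hP]
      refine Finset.sum_congr rfl fun σ _ => ?_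
      have h1 : f.embDomain (emb Ω hgen) (pt x σ) = f σ := emb_apply' hgen f σ
      change f.embDomain (emb Ω hgen) (pt x σ) * (κ (pt x σ) * eval (pt x σ) P) = _
      rw [h1, hκσ]
    · rw [Finsupp.support_embDomain, Finset.card_map]
      exact hcard
    · intro p hp
      obtain ⟨σ, rfl, hσ⟩ := emb_ne' hgen f hp
      exact hAc σ hσ
    · intro i p hi hp hon
      obtain ⟨σ, rfl, hσ⟩ := emb_ne' hgen f hp
      exact hz7 i hi σ hon
    · intro i p hp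
      obtain ⟨σ, rfl⟩ := hz2 i p hp
      exact ⟨hx0σ σ, hκne σ, hz4 i _ hp⟩
    · exact hz3
    · exact hz5
    · exact hz6
  · intro f' hf' c' hc' D' P hP
    have key : ∀ σ : K →ₐ[ℂ] Ω, (rows (fun j => σ (c' j)) (pt x σ) D').det =
        (Matrix.of fun i j => D' i (y j)).det * κ (pt x σ) := by
      intro σ
      have hxσ : aeval (pt x σ) F = 0 := by rw [pt_aeval, hx, map_zero]
      rw [Pool.Agent.Y988.NT.k1 hF hxσ (dual_pt hc' σ) (dual_pt hc σ) D', rows_change hy hD D',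
        hκσ]
    have h1 := hf' P hP
    have h2 : ∑ σ ∈ f'.support, f' σ * ((rows (fun j => σ (c' j)) (pt x σ) D').det *
        eval (pt x σ) P) = (Matrix.of fun i j => D' i (y j)).det *
          ∑ σ ∈ f'.support, f' σ * (κ (pt x σ) * eval (pt x σ) P) := by
      rw [Finset.mul_sum]
      refine Finset.sum_congr rfl fun σ _ => ?_
      rw [key]
      ring
    rw [h2, h1, mul_zero]

end Pool.Agent.N835.HO
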